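import Mathlib

namespace Pool.Agent.Results.MP_bb9d96_lc.Tight

/-- Label sequences of bi-infinite walks in a deterministic labelled graph. -/
def XG {V A : Type} (δ : V → A → Option V) : Set (ℤ → A) :=
  {x | ∃ q : ℤ → V, ∀ i, δ (q i) (x i) = some (q (i + 1))}

/-- `X` has a deterministic presentation with `n` vertices. -/
def Pres {A : Type} (X : Set (ℤ → A)) (n : ℕ) : Prop :=
  ∃ δ : Fin n → A → Option (Fin n), XG δ = X

/-- `X` is `M`-step. -/
def Step {A : Type} (X : Set (ℤ → A)) (M : ℕ) : Prop :=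
  ∃ F : Set (Fin (M + 1) → A), X = {x | ∀ i : ℤ, (fun j : Fin (M + 1) => x (i + (j : ℕ))) ∉ F}

inductive St | S | Z | O | D | R
  deriving DecidableEq, Fintype

abbrev Al (k : ℕ) := Fin (k + 1) ⊕ Bool

section
variable {k : ℕ}

def st (i j : Fin (k + 1)) : St → St
  | .O => if j < i then .O else if j = i then .D else .Z
  | .Z => if j < i then .Z else if j = i then .O else .D
  | .S => if j < i then .Z else if j = i then .O else .D
  | _ => .D

def δ0 (i : Fin (k + 1)) : St → Al k → Option St
  | s, .inr false => if s = .S then some .S else none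
  | s, .inr true => if s = .O then none else some .R
  | s, .inl j => if s = .R then none else some (st i j s)

def δ1 (v : Fin (k + 1) × St) (a : Al k) : Option (Fin (k + 1) × St) :=
  (δ0 v.1 v.2 a).map fun s => (v.1, s)

def run (i : Fin (k + 1)) (y : ℕ → Fin (k + 1)) : ℕ → St
  | 0 => .Z
  | t + 1 => st i (y t) (run i y t)

def rank : Al k → ℕ
  | .inr false => 0
  | .inl _ => 1
  | .inr true => 2

def cls : St → ℕ
  | .S => 0
  | .R => 2
  | _ => 1

theorem cls_st (i j : Fin (k + 1)) (s : St) : cls (st i j s) = 1 := by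
  cases s <;> simp only [st] <;> (try split_ifs) <;> rfl

theorem cls_run (i : Fin (k + 1)) (y : ℕ → Fin (k + 1)) : ∀ t, cls (run i y t) = 1
  | 0 => rfl
  | _ + 1 => cls_st _ _ _

theorem run_congr (i : Fin (k + 1)) {y y' : ℕ → Fin (k + 1)} :
    ∀ t, (∀ j < t, y j = y' j) → run i y t = run i y' t
  | 0, _ => rfl
  | t + 1, h => by
    rw [run, run, h t (by omega), run_congr i t fun j hj => h j (by omega)]

theorem geo (j : ℕ) (hj : j ≤ k + 1) :
    (∑ i : Fin (k + 1), if (i : ℕ) < j then 2 ^ (i : ℕ) else 0) + 1 = 2 ^ j := by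
  rw [Fin.sum_univ_eq_sum_range (fun i => if i < j then 2 ^ i else 0), ← Finset.sum_filter]
  have : (Finset.range (k + 1)).filter (· < j) = Finset.range j := by
    ext i
    simp only [Finset.mem_filter, Finset.mem_range]
    omega
  rw [this]
  clear this hj
  induction j with
  | zero => rfl
  | succ j ih => rw [Finset.sum_range_succ, pow_succ]; omega

theorem val (y : ℕ → Fin (k + 1)) : ∀ t, (∀ i, run i y t ≠ .D) →
    (∑ i : Fin (k + 1), if run i y t = .O then 2 ^ (i : ℕ) else 0) = t
  | 0, _ => by simp [run]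
  | t + 1, h => by
    have h0 : ∀ i, run i y t ≠ .D := fun i e => h i (by rw [run, e]; rfl)
    have ih := val y t h0
    have g := geo (k := k) (y t) (y t).2.le
    have key : ∀ i : Fin (k + 1), ((if run i y (t + 1) = .O then 2 ^ (i : ℕ) else 0) +
        if (i : ℕ) < y t then 2 ^ (i : ℕ) else 0) =
        (if run i y t = .O then 2 ^ (i : ℕ) else 0) + if i = y t then 2 ^ (y t : ℕ) else 0 := by
      intro i
      have h1 := h i
      have h2 := h0 i
      have h3 := cls_run i y t
      rw [run] at h1 ⊢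
      generalize run i y t = s at *
      rcases lt_trichotomy (y t) i with c | c | c
      · have c1 : ¬ (i : ℕ) < y t := not_lt.2 c.le
        cases s <;> simp_all [st, cls, c.ne']
      · subst c
        cases s <;> simp_all [st, cls]
      · have c1 : (i : ℕ) < y t := c
        cases s <;> simp_all [st, cls, c.ne, c.ne', not_lt.2 c.le]
    have := Finset.sum_congr rfl fun i (_ : i ∈ Finset.univ) => key i
    rw [Finset.sum_add_distrib, Finset.sum_add_distrib, ih, Finset.sum_ite_eq'] at this
    simp only [Finset.mem_univ, if_true] at this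
    omega

theorem tot : (∑ i : Fin (k + 1), 2 ^ (i : ℕ)) + 1 = 2 ^ (k + 1) := by
  have := geo (k := k) (k + 1) le_rfl
  simpa only [Fin.is_lt, if_true] using this

theorem len {y : ℕ → Fin (k + 1)} {L : ℕ} (h : ∀ i, run i y L = .O) : L + 1 = 2 ^ (k + 1) := by
  have := val y L fun i => by rw [h i]; decide
  simp only [h, if_true] at this
  rw [← this, tot]

theorem ex_run : ∀ t, t + 1 ≤ 2 ^ (k + 1) → ∃ y : ℕ → Fin (k + 1), ∀ i, run i y t ≠ .D
  | 0, _ => ⟨fun _ => 0, fun i => by simp [run]⟩
  | t + 1, h => by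
    obtain ⟨y, hy⟩ := ex_run t (by omega)
    have h1 : ∃ i, run i y t ≠ .O := by
      by_contra hc
      push Not at hc
      have := len hc
      omega
    obtain ⟨j, hj, hm⟩ := exists_minimal_of_wellFoundedLT _ h1
    refine ⟨Function.update y t j, fun i => ?_⟩
    rw [run, Function.update_self,
      run_congr i (y' := y) t fun a ha => Function.update_of_ne ha.ne _ _]
    have h2 := hy i
    have h3 := cls_run i y t
    rcases lt_trichotomy j i with c | c | c
    · generalize run i y t = s at *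
      cases s <;> simp_all [st, cls]
    · subst c
      generalize run j y t = s at *
      cases s <;> simp_all [st, cls]
    · have h4 : run i y t = .O := by
        by_contra h4
        exact absurd (hm h4 c.le) (not_le.2 c)
      simp [h4, st, c.ne', not_lt.2 c.le]

theorem ex_acc : ∃ (N : ℕ) (y : ℕ → Fin (k + 1)), ∀ i, run i y N = .O := by
  obtain ⟨N, hN⟩ : ∃ N, N + 1 = 2 ^ (k + 1) := ⟨_, tot⟩
  obtain ⟨y, hy⟩ := ex_run (k := k) N hN.le
  refine ⟨N, y, fun i => ?_⟩
  by_contra hne
  have h1 := val y N hy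
  have h2 : (∑ i : Fin (k + 1), if run i y N = .O then 2 ^ (i : ℕ) else 0) <
      ∑ i : Fin (k + 1), 2 ^ (i : ℕ) := by
    refine Finset.sum_lt_sum (fun a _ => by split_ifs <;> simp) ⟨i, Finset.mem_univ _, ?_⟩
    simp [hne]
  have := tot (k := k)
  omega

def Forb (x : ℤ → Al k) (p : ℤ) (L : ℕ) : Prop :=
  x p = .inr false ∧ x (p + 1 + L) = .inr true ∧ ∃ y : ℕ → Fin (k + 1),
    (∀ j < L, x (p + 1 + (j : ℕ)) = .inl (y j)) ∧ ∀ i, run i y L = .O

def X (k : ℕ) : Set (ℤ → Al k) :=
  {x | (∀ i, rank (x i) ≤ rank (x (i + 1))) ∧ ∀ p L, ¬ Forb x p L}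

theorem δ0_cls {i : Fin (k + 1)} {s s' : St} {a : Al k} (h : δ0 i s a = some s') :
    cls s ≤ rank a ∧ cls s' = rank a := by
  rcases a with j | (_ | _) <;> simp only [δ0] at h <;> split_ifs at h with c
  · obtain rfl := Option.some.inj h
    refine ⟨?_, cls_st _ _ _⟩
    cases s <;> simp_all [cls, rank]
  · obtain rfl := Option.some.inj h
    subst c
    exact ⟨le_rfl, rfl⟩
  · obtain rfl := Option.some.inj h
    refine ⟨?_, rfl⟩
    cases s <;> simp [cls, rank]

theorem rank0 {a : Al k} (h : rank a = 0) : a = .inr false := by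
  rcases a with j | (_ | _) <;> simp_all [rank]

theorem rank2 {a : Al k} (h : 2 ≤ rank a) : a = .inr true := by
  rcases a with j | (_ | _) <;> simp_all [rank]

theorem XG_eq : XG (δ1 (k := k)) = X k := by
  ext x
  constructor
  · rintro ⟨q, hq⟩
    have h1 : ∀ t, δ0 (q t).1 (q t).2 (x t) = some (q (t + 1)).2 ∧ (q (t + 1)).1 = (q t).1 := by
      intro t
      obtain ⟨s, h1, h2⟩ := Option.map_eq_some_iff.1 (hq t)
      rw [← h2]
      exact ⟨h1, rfl⟩
    refine ⟨fun i => ?_, ?_⟩
    · rw [← (δ0_cls (h1 i).1).2]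
      exact (δ0_cls (h1 (i + 1)).1).1
    · rintro p L ⟨a1, a2, y, a3, a4⟩
      have h2 : ∀ j ≤ L, (q (p + 1 + (j : ℕ))).1 = (q (p + 1)).1 ∧
          ((q (p + 1 + (j : ℕ))).2 = run (q (p + 1)).1 y j ∨
            j = 0 ∧ (q (p + 1 + (j : ℕ))).2 = .S) := by
        intro j hj
        induction j with
        | zero =>
          refine ⟨by simp, Or.inr ⟨rfl, ?_⟩⟩
          have := (h1 p).1
          rw [a1] at this
          simp only [δ0] at this
          split_ifs at this
          simpa using (Option.some.inj this).symm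
        | succ j ih =>
          obtain ⟨b1, b2⟩ := ih (by omega)
          obtain ⟨c1, c2⟩ := h1 (p + 1 + (j : ℕ))
          have e : p + 1 + ((j + 1 : ℕ) : ℤ) = p + 1 + (j : ℕ) + 1 := by push_cast; ring
          rw [e]
          refine ⟨c2.trans b1, Or.inl ?_⟩
          rw [a3 j (by omega), b1] at c1
          simp only [δ0] at c1
          split_ifs at c1
          rw [← Option.some.inj c1, run]
          rcases b2 with b2 | ⟨rfl, b2⟩
          · rw [b2]
          · rw [b2]; rfl
      have c1 := (h1 (p + 1 + L)).1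
      rcases (h2 L le_rfl).2 with b | ⟨rfl, -⟩
      · rw [a2, b, a4] at c1
        simp [δ0] at c1
      · exact absurd (a4 0) (by simp [run])
  · rintro ⟨hm, hf⟩
    have mono : ∀ {a b : ℤ}, a ≤ b → rank (x a) ≤ rank (x b) := fun h =>
      monotone_int_of_le_succ (f := fun t => rank (x t)) hm h
    by_cases hp : ∃ p, x p = .inr false ∧ x (p + 1) ≠ .inr false
    · obtain ⟨p, hp1, hp2⟩ := hp
      let y : ℕ → Fin (k + 1) := fun j => (x (p + 1 + j)).elim id fun _ => 0
      have hge : ∀ t, p + 1 ≤ t → 1 ≤ rank (x t) := fun t ht =>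
        le_trans (Nat.pos_of_ne_zero fun e => hp2 (rank0 e)) (mono ht)
      have hy : ∀ j : ℕ, x (p + 1 + j) ≠ .inr true → x (p + 1 + j) = .inl (y j) := by
        intro j hj
        have := hge (p + 1 + j) (by omega)
        simp only [y]
        generalize x (p + 1 + j) = a at *
        rcases a with j | (_ | _) <;> simp_all [rank]
      have hr : ∀ a b, a ≤ b → x a = .inr true → x b = .inr true := fun a b hab h =>
        rank2 (le_trans (by rw [h]; exact le_rfl) (mono hab))
      obtain ⟨i, hi⟩ : ∃ i, ∀ L : ℕ, x (p + L) ≠ .inr true → x (p + 1 + L) = .inr true →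
          run i y L ≠ .O := by
        by_cases hL : ∃ L : ℕ, x (p + L) ≠ .inr true ∧ x (p + 1 + L) = .inr true
        · obtain ⟨L, h1, h2⟩ := hL
          by_contra hc
          push Not at hc
          refine hf p L ⟨hp1, h2, y, fun j hj => hy j fun e => h1 (hr _ _ (by omega) e), fun i => ?_⟩
          obtain ⟨L', c1, c2, c3⟩ := hc i
          rcases lt_trichotomy L L' with c | c | c
          · exact absurd (hr _ _ (by omega) h2) c1
          · rw [c, c3]
          · exact absurd (hr _ _ (by omega) c2) h1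
        · exact ⟨0, fun L h1 h2 => absurd ⟨L, h1, h2⟩ hL⟩
      refine ⟨fun t => (i, if t ≤ p + 1 then .S else if x (t - 1) = .inr true then .R else
        run i y (t - p - 1).toNat), fun t => ?_⟩
      simp only [δ1, Option.map_eq_some_iff, Prod.mk.injEq, true_and, exists_eq_right]
      by_cases c1 : t ≤ p
      · have : x t = .inr false := rank0 (Nat.le_zero.1 (le_trans (mono c1) (by rw [hp1]; rfl)))
        rw [this, if_pos (by omega), if_pos (by omega)]
        rfl
      obtain ⟨L, rfl⟩ : ∃ L : ℕ, t = p + 1 + L := ⟨(t - p - 1).toNat, by omega⟩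
      have e1 : (p + 1 + L + 1 - p - 1).toNat = L + 1 := by omega
      have e2 : (p + 1 + L - p - 1).toNat = L := by omega
      have e3 : p + 1 + L - 1 = p + L := by ring
      rw [if_neg (show ¬ p + 1 + L + 1 ≤ p + 1 by omega), add_sub_cancel_right, e1, e2, e3]
      by_cases c2 : x (p + 1 + L) = .inr true
      · rw [if_pos c2, c2]
        simp only [δ0]
        rw [if_neg]
        split_ifs with c3 c4
        · decide
        · decide
        · exact hi L c4 c2
      · have c4 : x (p + L) ≠ .inr true := fun e => c2 (hr _ _ (by omega) e)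
        rw [if_neg c2, if_neg c4, hy L c2]
        simp only [δ0]
        split_ifs with c3 c5 c6
        · cases c5
        · obtain rfl : L = 0 := by omega
          rfl
        · have := cls_run i y L
          rw [c6] at this
          cases this
        · rfl
    · push Not at hp
      refine ⟨fun t => (0, if x (t - 1) = .inr false then .S else
        if x (t - 1) = .inr true then .R else .D), fun t => ?_⟩
      have h1 := hp (t - 1)
      have h2 := hm (t - 1)
      simp only [sub_add_cancel, add_sub_cancel_right] at h1 h2 ⊢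
      generalize x (t - 1) = a at *
      generalize x t = b at *
      rcases a with j | (_ | _) <;> rcases b with j' | (_ | _) <;> simp_all [δ1, δ0, rank, st]

theorem pres_of {V A : Type} [Fintype V] (δ : V → A → Option V) :
    Pres (XG δ) (Fintype.card V) := by
  let e := Fintype.equivFin V
  refine ⟨fun v a => (δ (e.symm v) a).map e, Set.ext fun x => ⟨?_, ?_⟩⟩
  · rintro ⟨q, hq⟩
    refine ⟨fun t => e.symm (q t), fun t => ?_⟩
    obtain ⟨s, h1, h2⟩ := Option.map_eq_some_iff.1 (hq t)
    simp only [h1, ← h2, e.symm_apply_apply]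
  · rintro ⟨q, hq⟩
    exact ⟨fun t => e (q t), fun t => by simp [hq]⟩

theorem step_X : Step (X k) (2 ^ (k + 1)) := by
  refine ⟨{w | ∃ x : ℤ → Al k, (fun j : Fin (2 ^ (k + 1) + 1) => x ((j : ℕ) : ℤ)) = w ∧
    (rank (x 1) < rank (x 0) ∨ ∃ L, Forb x 0 L)}, Set.ext fun x => ⟨?_, fun h => ⟨?_, ?_⟩⟩⟩
  · rintro ⟨h1, h2⟩ i ⟨z, hz, h⟩
    have hz' : ∀ j : ℕ, j ≤ 2 ^ (k + 1) → z j = x (i + j) := fun j hj =>
      congrFun hz ⟨j, by omega⟩
    have z0 : z 0 = x i := by simpa using hz' 0 (Nat.zero_le _)
    rcases h with h | ⟨L, a1, a2, y, a3, a4⟩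
    · have z1 : z 1 = x (i + 1) := by simpa using hz' 1 Nat.one_le_two_pow
      rw [z0, z1] at h
      exact absurd (h1 i) (not_le.2 h)
    · have hL := len a4
      have : ∀ j : ℕ, j ≤ L → z (0 + 1 + j) = x (i + 1 + j) := fun j hj => by
        have := hz' (j + 1) (by omega)
        push_cast at this
        convert this using 2 <;> ring
      exact h2 i L ⟨z0 ▸ a1, this L le_rfl ▸ a2, y, fun j hj => this j hj.le ▸ a3 j hj, a4⟩
  · intro i
    by_contra hc
    exact h i ⟨fun t => x (i + t), rfl, Or.inl (by simpa using hc)⟩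
  · rintro p L ⟨a1, a2, y, a3, a4⟩
    refine h p ⟨fun t => x (p + t), rfl, Or.inr ⟨L, by simpa using a1, ?_, y, fun j hj => ?_, a4⟩⟩
    · simpa [add_assoc] using a2
    · simpa [add_assoc] using a3 j hj

/-- word with `ℓ` before `a`, `r` from `b` on, and letters of `z` in between -/
def Wd (z : ℤ → Fin (k + 1)) (a b : ℤ) : ℤ → Al k := fun t =>
  if t < a then .inr false else if b ≤ t then .inr true else .inl (z t)

theorem Wd_mem (z : ℤ → Fin (k + 1)) (a b : ℤ) (h : b - a + 1 ≠ 2 ^ (k + 1)) :
    Wd z a b ∈ X k := by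
  refine ⟨fun i => ?_, ?_⟩
  · simp only [Wd]
    split_ifs <;> simp only [rank] <;> omega
  · rintro p L ⟨a1, a2, y, a3, a4⟩
    have hL := len a4
    have hL1 : 2 ≤ 2 ^ (k + 1) := Nat.le_self_pow (by omega) 2
    have b1 := a3 0 (by omega)
    have b2 := a3 (L - 1) (by omega)
    apply h
    have : ((L + 1 : ℕ) : ℤ) = 2 ^ (k + 1) := by rw [hL]; push_cast; rfl
    rw [← this]
    simp only [Wd] at a1 a2 b1 b2
    split_ifs at a1 a2 b1 b2 <;> omega

theorem Wd_not {N : ℕ} {y : ℕ → Fin (k + 1)} (h : ∀ i, run i y N = .O) (t : ℤ) :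
    Wd (fun s => y (s + t).toNat) (-t) (N - t) ∉ X k := by
  intro hx
  refine hx.2 (-t - 1) N ⟨?_, ?_, y, fun j hj => ?_, h⟩
  · simp [Wd]
  · simp only [Wd]
    rw [if_neg (by omega), if_pos (by omega)]
  · simp only [Wd]
    rw [if_neg (by omega), if_neg (by omega)]
    congr 2
    omega

theorem not_step {M : ℕ} (h : Step (X k) M) : 2 ^ (k + 1) ≤ M := by
  obtain ⟨N, y, hy⟩ := ex_acc (k := k)
  have hN := len hy
  have hN' : ((N + 1 : ℕ) : ℤ) = 2 ^ (k + 1) := by rw [hN]; push_cast; rfl
  by_contra hM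
  obtain ⟨F, hF⟩ := h
  apply Wd_not hy 0
  rw [hF]
  intro i
  by_cases c : i + M < N
  · have := Wd_mem (fun s => y (s + 0).toNat) 0 (N + 1) (by omega)
    rw [hF] at this
    refine fun hh => this i ?_
    convert hh using 2 with j
    have := j.2
    simp only [Wd]
    split_ifs <;> first | rfl | omega
  · have := Wd_mem (fun s => y (s + 0).toNat) (-1) N (by omega)
    rw [hF] at this
    refine fun hh => this i ?_
    convert hh using 2 with j
    have := j.2
    simp only [Wd]
    split_ifs <;> first | rfl | omega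

theorem pres_lb {n : ℕ} (h : Pres (X k) n) : k + 1 ≤ n := by
  classical
  obtain ⟨N, y, hy⟩ := ex_acc (k := k)
  have hN := len hy
  have hN' : ((N + 1 : ℕ) : ℤ) = 2 ^ (k + 1) := by rw [hN]; push_cast; rfl
  obtain ⟨δ, hδ⟩ := h
  let x : Fin (N + 1) → ℤ → Al k := fun t =>
    Wd (fun s => y (s + (t : ℕ)).toNat) (-(t : ℕ)) (N - (t : ℕ))
  let P : Fin (N + 1) → Set (Fin n) := fun t =>
    {v | ∃ q : ℤ → Fin n, (∀ i < 0, δ (q i) (x t i) = some (q (i + 1))) ∧ q 0 = v}
  have hP : Function.Injective P := by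
    intro t t' e
    by_contra hne
    have h1 := t.2
    have h2 := t'.2
    have h3 : (t : ℕ) ≠ t' := fun e => hne (Fin.ext e)
    have := Wd_mem (fun s => if s < 0 then y (s + (t' : ℕ)).toNat else y (s + (t : ℕ)).toNat)
      (-(t' : ℕ)) (N - (t : ℕ)) (by omega)
    rw [← hδ] at this
    obtain ⟨q, hq⟩ := this
    have h4 : q 0 ∈ P t' := by
      refine ⟨q, fun i hi => ?_, rfl⟩
      rw [← hq i]
      congr 1
      simp only [x, Wd]
      split_ifs <;> first | rfl | omega
    rw [← e] at h4
    obtain ⟨q', hq', h5⟩ := h4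
    apply Wd_not hy (t : ℕ)
    rw [← hδ]
    refine ⟨fun i => if i < 0 then q' i else q i, fun i => ?_⟩
    by_cases c : i < 0
    · simp only [if_pos c]
      refine (hq' i c).trans ?_
      split_ifs with c2
      · rfl
      · obtain rfl : i = -1 := by omega
        exact congrArg some h5
    · simp only [if_neg c, if_neg (show ¬ i + 1 < 0 by omega)]
      rw [← hq i]
      congr 1
      simp only [Wd]
      split_ifs <;> first | rfl | omega
  have := Fintype.card_le_of_injective P hP
  simp only [Fintype.card_fin, Fintype.card_set] at this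
  rw [hN] at this
  exact (Nat.pow_le_pow_iff_right (by norm_num)).1 this

end

theorem result : ∃ c : ℝ, 0 < c ∧ ∃ (A : ℕ → Type) (_ : ∀ k, Finite (A k))
    (X : ∀ k, Set (ℤ → A k)) (s m : ℕ → ℕ),
    (∀ k, IsLeast {n | Pres (X k) n} (s k)) ∧ (∀ k, IsLeast {M | Step (X k) M} (m k)) ∧
    Filter.Tendsto s Filter.atTop Filter.atTop ∧ ∀ k, (2 : ℝ) ^ (c * s k) ≤ m k := by
  classical
  have hp : ∀ k, Pres (X k) ((k + 1) * 5) := fun k => by
    have := pres_of (δ1 (k := k))
    rw [XG_eq] at this
    simpa using! this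
  have hs : ∀ k, IsLeast {n | Pres (X k) n} (Nat.find ⟨_, hp k⟩) := fun k =>
    ⟨Nat.find_spec ⟨_, hp k⟩, fun _ h => Nat.find_min' _ h⟩
  refine ⟨1 / 5, by norm_num, Al, inferInstance, X, fun k => Nat.find ⟨_, hp k⟩,
    fun k => 2 ^ (k + 1), hs, fun k => ⟨step_X, fun _ h => not_step h⟩, ?_, fun k => ?_⟩
  · exact Filter.tendsto_atTop_mono (fun k => (Nat.le_succ k).trans (pres_lb (hs k).1))
      Filter.tendsto_id
  · have h1 : ((Nat.find ⟨_, hp k⟩ : ℕ) : ℝ) ≤ ((k + 1) * 5 : ℕ) := by
      exact_mod_cast (hs k).2 (hp k)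
    push_cast at h1 ⊢
    rw [← Real.rpow_natCast]
    refine Real.rpow_le_rpow_of_exponent_le (by norm_num) ?_
    push_cast
    linarith

end Pool.Agent.Results.MP_bb9d96_lc.Tight
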